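import Pool.Agent.W2helper86.PL.Stm

/-!
# Project PL (helper86), piece PL-NUM: `P_num`, `P_poly`, `P_num2`
-/

set_option autoImplicit false

namespace Pool.Agent.W2helper23.PL

open Filter Topology Pool.Agent.W2helper86.PL

/-- `log₂ log₂ N` -/
noncomputable def yy (N : ℕ) : ℝ := Real.logb 2 (Real.logb 2 N)

theorem tendsto_l2 : Tendsto (fun N : ℕ => Real.logb 2 (N : ℝ)) atTop atTop :=
  (Real.tendsto_logb_atTop (by norm_num)).comp tendsto_natCast_atTop_atTop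

theorem tendsto_yy : Tendsto yy atTop atTop :=
  (Real.tendsto_logb_atTop (by norm_num)).comp tendsto_l2

theorem eval_le (p : Polynomial ℕ) (n : ℕ) (hn : 1 ≤ n) :
    p.eval n ≤ p.eval 1 * n ^ p.natDegree := by
  rw [Polynomial.eval_eq_sum_range, Polynomial.eval_eq_sum_range, Finset.sum_mul]
  refine Finset.sum_le_sum fun i hi => ?_
  rw [one_pow, mul_one]
  refine Nat.mul_le_mul_left _ (Nat.pow_le_pow_right hn ?_)
  have := Finset.mem_range.1 hi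
  omega

theorem ev_pow (C d : ℕ) : ∀ᶠ v : ℕ in atTop, C * v ^ d + C ≤ 2 ^ v := by
  have h1 : Tendsto (fun n : ℕ => (n : ℝ) ^ (d + 1) / 2 ^ n) atTop (nhds 0) :=
    tendsto_pow_const_div_const_pow_of_one_lt (d + 1) (by norm_num)
  filter_upwards [h1.eventually (gt_mem_nhds one_pos), eventually_ge_atTop (2 * C + 1)] with v hv hv1
  have h2 : (v : ℝ) ^ (d + 1) < 2 ^ v := by
    rwa [div_lt_one (by positivity)] at hv
  have h3 : v ^ (d + 1) < 2 ^ v := by exact_mod_cast h2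
  have h4 : 1 ≤ v ^ d := Nat.one_le_pow _ _ (by omega)
  calc C * v ^ d + C ≤ C * v ^ d + C * v ^ d := by nlinarith
    _ = 2 * C * v ^ d := by ring
    _ ≤ v * v ^ d := Nat.mul_le_mul_right _ (by omega)
    _ = v ^ (d + 1) := by ring
    _ ≤ 2 ^ v := h3.le

/-- the condition on the exponents -/
theorem ev_A (k D : ℕ) : ∀ᶠ i : ℕ in atTop, 2 + D * (i + 3) ^ k + D ≤ 2 * 2 ^ i := by
  have h := (tendsto_add_atTop_nat 3).eventually (ev_pow (4 * (D + 2)) k)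
  filter_upwards [h] with i hi
  have h1 : 1 ≤ (i + 3) ^ k := Nat.one_le_pow _ _ (by omega)
  have h2 : 2 ^ (i + 3) = 8 * 2 ^ i := by ring
  rw [h2] at hi
  nlinarith

/-- the estimate of the probability -/
theorem ev_B (p : Polynomial ℕ) (δ : ℝ) (hδ : 0 < δ) : ∀ᶠ i : ℕ in atTop, ∀ F : ℝ,
    F ≤ ((2 ^ (2 ^ i) : ℕ) : ℝ) →
    (2 : ℝ) ^ (p.eval (4 * 2 ^ i) + 1) * (3 / 4) ^ (2 ^ (2 * 2 ^ i)) * 2 ^ F ≤ δ := by
  obtain ⟨L, hL⟩ : ∃ L : ℕ, (1 / 2 : ℝ) ^ L < δ := exists_pow_lt_of_lt_one hδ (by norm_num)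
  obtain ⟨C, hC⟩ : ∃ C : ℕ, C = p.eval 1 * 4 ^ p.natDegree + 1 + L := ⟨_, rfl⟩
  have hv : Tendsto (fun i : ℕ => 2 ^ i) atTop (atTop : Filter ℕ) :=
    tendsto_pow_atTop_atTop_of_one_lt (by norm_num)
  filter_upwards [hv.eventually (ev_pow C p.natDegree), hv.eventually (eventually_ge_atTop 3)]
    with i hi hi3
  intro F hF
  obtain ⟨v, hvv⟩ : ∃ v : ℕ, v = 2 ^ i := ⟨_, rfl⟩
  rw [← hvv] at hi hi3 hF ⊢
  obtain ⟨u, hu⟩ : ∃ u : ℕ, u = 2 ^ v := ⟨_, rfl⟩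
  have hu8 : 8 ≤ u := by
    rw [hu]
    calc 8 = 2 ^ 3 := by norm_num
      _ ≤ 2 ^ v := Nat.pow_le_pow_right (by norm_num) hi3
  have e1 : 2 ^ (2 * v) = u * u := by rw [hu, ← pow_add]; congr 1; ring
  have h1 : p.eval (4 * v) + 1 + L ≤ u := by
    have h2 := eval_le p (4 * v) (by omega)
    rw [mul_pow] at h2
    rw [hu]
    refine le_trans ?_ hi
    rw [hC]
    have h3 : 1 ≤ v ^ p.natDegree := Nat.one_le_pow _ _ (by omega)
    nlinarith [Nat.zero_le (p.eval 1 * 4 ^ p.natDegree), Nat.zero_le L,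
      Nat.zero_le ((1 + L) * v ^ p.natDegree)]
  rw [e1]
  have hF' : F ≤ (u : ℝ) := by rw [hu]; exact hF
  have h2 : (2 : ℝ) ^ F ≤ 2 ^ u := by
    rw [← Real.rpow_natCast]
    exact Real.rpow_le_rpow_of_exponent_le (by norm_num) hF'
  have h3 : (3 / 4 : ℝ) ^ (u * u) * 2 ^ u ≤ (1 / 2) ^ u := by
    rw [pow_mul, ← mul_pow]
    refine pow_le_pow_left₀ (by positivity) ?_ u
    have h4 : (3 / 4 : ℝ) ^ u ≤ (3 / 4) ^ 5 :=
      pow_le_pow_of_le_one (by norm_num) (by norm_num) (by omega)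
    norm_num at h4 ⊢
    linarith
  have h4 : (2 : ℝ) ^ (p.eval (4 * v) + 1) * (1 / 2) ^ u ≤ (1 / 2) ^ L := by
    obtain ⟨w, hw⟩ : ∃ w : ℕ, u = p.eval (4 * v) + 1 + L + w := ⟨u - (p.eval (4 * v) + 1 + L), by omega⟩
    rw [hw, pow_add (1 / 2 : ℝ) (p.eval (4 * v) + 1 + L) w, pow_add (1 / 2 : ℝ) (p.eval (4 * v) + 1) L]
    have h5 : (2 : ℝ) ^ (p.eval (4 * v) + 1) * (1 / 2) ^ (p.eval (4 * v) + 1) = 1 := by
      rw [← mul_pow]; norm_num
    have h6 : (1 / 2 : ℝ) ^ w ≤ 1 := pow_le_one₀ (by norm_num) (by norm_num)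
    have h7 : (0 : ℝ) ≤ (1 / 2) ^ L := by positivity
    calc (2 : ℝ) ^ (p.eval (4 * v) + 1) * ((1 / 2) ^ (p.eval (4 * v) + 1) * (1 / 2) ^ L * (1 / 2) ^ w)
        = ((2 : ℝ) ^ (p.eval (4 * v) + 1) * (1 / 2) ^ (p.eval (4 * v) + 1)) * (1 / 2) ^ L *
            (1 / 2) ^ w := by ring
      _ ≤ 1 * (1 / 2) ^ L * 1 := by
          rw [h5]
          gcongr
      _ = (1 / 2) ^ L := by ring
  calc (2 : ℝ) ^ (p.eval (4 * v) + 1) * (3 / 4) ^ (u * u) * 2 ^ F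
      ≤ (2 : ℝ) ^ (p.eval (4 * v) + 1) * (3 / 4) ^ (u * u) * 2 ^ u := by gcongr
    _ = (2 : ℝ) ^ (p.eval (4 * v) + 1) * ((3 / 4) ^ (u * u) * 2 ^ u) := by ring
    _ ≤ (2 : ℝ) ^ (p.eval (4 * v) + 1) * (1 / 2) ^ u := by gcongr
    _ ≤ (1 / 2) ^ L := h4
    _ ≤ δ := hL.le

theorem pow_le_of_logb {a N : ℕ} (hN : 1 ≤ N) (h : (a : ℝ) ≤ Real.logb 2 N) : 2 ^ a ≤ N := by
  have hN0 : (0 : ℝ) < N := by exact_mod_cast hN
  have h1 : (2 : ℝ) ^ (a : ℝ) ≤ (2 : ℝ) ^ Real.logb 2 N :=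
    Real.rpow_le_rpow_of_exponent_le (by norm_num) h
  rw [Real.rpow_logb (by norm_num) (by norm_num) hN0, Real.rpow_natCast] at h1
  exact_mod_cast h1

theorem p_num : P_num := by
  intro k hk f hf D p δ hδ
  obtain ⟨c, hc⟩ : ∃ c : ℝ, c = 1 / (4 * ((D : ℝ) + 2)) := ⟨_, rfl⟩
  have hD0 : (0 : ℝ) ≤ D := Nat.cast_nonneg D
  have hc0 : 0 < c := by rw [hc]; positivity
  have hc8 : c ≤ 1 / 8 := by
    rw [hc]
    apply one_div_le_one_div_of_le (by norm_num)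
    linarith
  obtain ⟨i0, hi0⟩ := eventually_atTop.1 ((ev_A k D).and (ev_B p δ hδ))
  have hfreq := hf (c / 2) (by positivity)
  have hY : Tendsto (fun N => yy N ^ (1 / (k : ℝ))) atTop atTop :=
    (tendsto_rpow_atTop (by positivity)).comp tendsto_yy
  have hcY : Tendsto (fun N => c * yy N ^ (1 / (k : ℝ))) atTop atTop := hY.const_mul_atTop hc0
  have hev : ∀ᶠ N : ℕ in atTop, 2 * (D : ℝ) + 4 ≤ yy N ∧ (i0 : ℝ) + 8 ≤ c * yy N ^ (1 / (k : ℝ)) ∧
      0 < Real.logb 2 (N : ℝ) ∧ 1 ≤ N :=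
    (tendsto_yy.eventually_ge_atTop _).and ((hcY.eventually_ge_atTop _).and
      ((tendsto_l2.eventually_gt_atTop _).and (eventually_ge_atTop 1)))
  obtain ⟨N, hfN, hy, hi, hl, hN1⟩ := (hfreq.and_eventually hev).exists
  have hfN' : f N ≤ 2 ^ ((2 : ℝ) ^ (c / 2 * yy N ^ (1 / (k : ℝ)))) := hfN
  obtain ⟨y, hyy⟩ : ∃ y, y = yy N := ⟨_, rfl⟩
  obtain ⟨Y, hYY⟩ : ∃ Y, Y = y ^ (1 / (k : ℝ)) := ⟨_, rfl⟩
  rw [← hyy] at hy hi hfN'
  rw [← hYY] at hi hfN'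
  have hy1 : 1 ≤ y := by linarith
  have hk0 : (0 : ℝ) < k := by exact_mod_cast hk
  have hk1 : (1 : ℝ) ≤ k := by exact_mod_cast hk
  have hYk : Y ^ k = y := by
    rw [hYY, ← Real.rpow_natCast, ← Real.rpow_mul (by linarith), one_div_mul_cancel hk0.ne',
      Real.rpow_one]
  have hYy : Y ≤ y := by
    rw [hYY]
    calc y ^ (1 / (k : ℝ)) ≤ y ^ (1 : ℝ) :=
          Real.rpow_le_rpow_of_exponent_le hy1 (by rw [div_le_one hk0]; exact hk1)
      _ = y := Real.rpow_one y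
  have hY0 : 0 ≤ Y := by rw [hYY]; positivity
  have h2y : (2 : ℝ) ^ y = Real.logb 2 (N : ℝ) := by
    rw [hyy]
    exact Real.rpow_logb (by norm_num) (by norm_num) hl
  obtain ⟨j, hj⟩ : ∃ j : ℕ, j = ⌊c * Y⌋₊ := ⟨_, rfl⟩
  have hj1 : (j : ℝ) ≤ c * Y := by
    rw [hj]
    exact Nat.floor_le (by positivity)
  have hj2 : c * Y < j + 1 := by
    rw [hj]
    exact Nat.lt_floor_add_one _
  have hi0' : (0 : ℝ) ≤ i0 := Nat.cast_nonneg i0
  have hj3 : i0 + 7 ≤ j := by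
    have h1 : ((i0 + 7 : ℕ) : ℝ) < (j : ℝ) + 1 := by
      push_cast
      linarith
    have h2 : ((i0 + 7 : ℕ) : ℝ) < ((j + 1 : ℕ) : ℝ) := by
      push_cast
      push_cast at h1
      exact h1
    have h3 : i0 + 7 < j + 1 := by exact_mod_cast h2
    omega
  obtain ⟨i, hij⟩ : ∃ i, j = i + 2 := ⟨j - 2, by omega⟩
  obtain ⟨hA, hB⟩ := hi0 i (by omega)
  have e4 : 4 * 2 ^ i = 2 ^ j := by rw [hij]; ring
  have hsz : Nat.size (4 * 2 ^ i) = j + 1 := by rw [e4, Nat.size_pow]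
  have hjr : (j : ℝ) = i + 2 := by rw [hij]; push_cast; ring
  -- the exponent
  obtain ⟨E, hE⟩ : ∃ E : ℕ, E = D * (j + 1) ^ k + D := ⟨_, rfl⟩
  have hEr : (E : ℝ) ≤ y / 2 + D := by
    rw [hE]
    push_cast
    have h1 : ((j : ℝ) + 1) ^ k ≤ (2 * c * Y) ^ k := by
      refine pow_le_pow_left₀ (by positivity) ?_ k
      linarith
    have h2 : (2 * c * Y) ^ k ≤ 2 * c * y := by
      rw [mul_pow, hYk]
      refine mul_le_mul_of_nonneg_right ?_ (by linarith)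
      exact pow_le_of_le_one (by positivity) (by linarith) (by omega)
    have h3 : (D : ℝ) * (2 * c * y) ≤ y / 2 := by
      rw [hc]
      have : (D : ℝ) * (2 * (1 / (4 * ((D : ℝ) + 2))) * y) = y / 2 * (D / (D + 2)) := by
        field_simp
        ring
      rw [this]
      have h4 : (D : ℝ) / (D + 2) ≤ 1 := by
        rw [div_le_one (by linarith)]
        linarith
      nlinarith
    nlinarith [h1.trans h2]
  have hE2 : (2 : ℝ) ^ E ≤ 2 ^ (y / 2) * 2 ^ D := by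
    rw [← Real.rpow_natCast, ← Real.rpow_natCast (2 : ℝ) D, ← Real.rpow_add (by norm_num)]
    exact Real.rpow_le_rpow_of_exponent_le (by norm_num) hEr
  have hyh : (2 : ℝ) ^ (y / 2) * 2 ^ (y / 2) = Real.logb 2 (N : ℝ) := by
    rw [← Real.rpow_add (by norm_num), ← h2y]
    congr 1
    ring
  have hh : (2 : ℝ) ^ D * 4 ≤ (2 : ℝ) ^ (y / 2) := by
    have h1 : ((D : ℝ) + 2) ≤ y / 2 := by linarith
    calc (2 : ℝ) ^ D * 4 = (2 : ℝ) ^ ((D : ℝ) + 2) := by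
          rw [Real.rpow_add (by norm_num), Real.rpow_natCast]
          norm_num
      _ ≤ _ := Real.rpow_le_rpow_of_exponent_le (by norm_num) h1
  have hD1 : (1 : ℝ) ≤ 2 ^ D := one_le_pow₀ (by norm_num)
  have hy4 : (4 : ℝ) ≤ (2 : ℝ) ^ (y / 2) := by linarith
  refine ⟨4 * 2 ^ i, 2 ^ (2 * 2 ^ i), N, ?_, ?_, ?_, ?_, ?_⟩
  · have : 1 ≤ 2 ^ i := Nat.one_le_two_pow
    omega
  · rw [hsz, ← hE]
    have h1 : 1 ≤ 2 ^ E := Nat.one_le_two_pow
    have h2 : E + 2 ≤ 2 * 2 ^ i := by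
      have e5 : j + 1 = i + 3 := by omega
      rw [hE, e5]
      omega
    calc 2 * (2 ^ (2 * 2 ^ i) + 2 ^ (2 * 2 ^ i) * 2 ^ E)
        ≤ 2 * (2 ^ (2 * 2 ^ i) * 2 ^ E + 2 ^ (2 * 2 ^ i) * 2 ^ E) := by
          have := Nat.le_mul_of_pos_right (2 ^ (2 * 2 ^ i)) (show 0 < 2 ^ E by omega)
          omega
      _ = 2 ^ (2 * 2 ^ i + (E + 2)) := by ring
      _ ≤ 2 ^ (4 * 2 ^ i) := Nat.pow_le_pow_right (by norm_num) (by omega)
  · apply pow_le_of_logb hN1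
    rw [← hyh]
    push_cast
    have h1 : (4 * 2 ^ i : ℝ) ≤ (2 : ℝ) ^ (y / 2) := by
      have h2 : (4 * 2 ^ i : ℝ) = (2 : ℝ) ^ (j : ℝ) := by
        rw [Real.rpow_natCast, hij]
        ring
      rw [h2]
      apply Real.rpow_le_rpow_of_exponent_le (by norm_num)
      nlinarith
    nlinarith
  · apply pow_le_of_logb hN1
    rw [hsz, ← hE, ← hyh]
    push_cast
    nlinarith
  · apply hB (f N)
    refine hfN'.trans ?_
    push_cast
    rw [← Real.rpow_natCast (2 : ℝ) (2 ^ i)]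
    apply Real.rpow_le_rpow_of_exponent_le (by norm_num)
    push_cast
    rw [← Real.rpow_natCast (2 : ℝ) i]
    apply Real.rpow_le_rpow_of_exponent_le (by norm_num)
    linarith

theorem p_poly : P_poly := by
  intro f
  constructor
  · intro h k hk δ hδ
    have hk0 : (0 : ℝ) < k := by exact_mod_cast hk
    have h1 := h (1 / ((k : ℝ) + 1)) (by positivity)
    have hpos : 0 < 1 / (k : ℝ) - 1 / ((k : ℝ) + 1) := by
      rw [sub_pos]
      exact one_div_lt_one_div_of_lt hk0 (by linarith)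
    have h2 : Tendsto (fun N => yy N ^ (1 / (k : ℝ) - 1 / ((k : ℝ) + 1))) atTop atTop :=
      (tendsto_rpow_atTop hpos).comp tendsto_yy
    refine (h1.and_eventually ((h2.eventually_ge_atTop (1 / δ)).and
      (tendsto_yy.eventually_gt_atTop 0))).mono ?_
    rintro N ⟨h3, h4, h5⟩
    refine h3.trans ?_
    apply Real.rpow_le_rpow_of_exponent_le (by norm_num)
    apply Real.rpow_le_rpow_of_exponent_le (by norm_num)
    change yy N ^ (1 / ((k : ℝ) + 1)) ≤ δ * yy N ^ (1 / (k : ℝ))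
    have h6 : yy N ^ (1 / (k : ℝ)) =
        yy N ^ (1 / (k : ℝ) - 1 / ((k : ℝ) + 1)) * yy N ^ (1 / ((k : ℝ) + 1)) := by
      rw [← Real.rpow_add h5]
      congr 1
      ring
    rw [h6]
    have h7 : 0 < yy N ^ (1 / ((k : ℝ) + 1)) := Real.rpow_pos_of_pos h5 _
    have h8 : 1 ≤ δ * yy N ^ (1 / (k : ℝ) - 1 / ((k : ℝ) + 1)) := by
      rw [div_le_iff₀ hδ] at h4
      linarith
    nlinarith
  · intro h ε hε
    obtain ⟨k, hk⟩ := exists_nat_gt (1 / ε)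
    have hk0 : (0 : ℝ) < k := lt_trans (by positivity) hk
    have hk1 : 1 ≤ k := by
      have : 0 < k := by exact_mod_cast hk0
      omega
    refine ((h k hk1 1 one_pos).and_eventually (tendsto_yy.eventually_ge_atTop 1)).mono ?_
    rintro N ⟨h3, h4⟩
    refine h3.trans ?_
    apply Real.rpow_le_rpow_of_exponent_le (by norm_num)
    apply Real.rpow_le_rpow_of_exponent_le (by norm_num)
    rw [one_mul]
    apply Real.rpow_le_rpow_of_exponent_le h4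
    rw [div_le_iff₀ hk0]
    rw [div_lt_iff₀ hε] at hk
    linarith

theorem p_num2 : P_num2 := by
  intro k hk f hf
  unfold CondK at hf
  push Not at hf
  obtain ⟨δ, hδ, h⟩ := hf
  have hk0 : (0 : ℝ) < k := by exact_mod_cast hk
  obtain ⟨C, hC⟩ := exists_nat_gt (1 / δ ^ k)
  refine ⟨C, ?_⟩
  have hδk : 0 < δ ^ k := by positivity
  have hC1 : 1 < C * δ ^ k := by rwa [div_lt_iff₀ hδk] at hC
  filter_upwards [h, tendsto_yy.eventually_gt_atTop 0, tendsto_l2.eventually_gt_atTop 0,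
    eventually_ge_atTop 1] with N h1 h2 h3 h4
  obtain ⟨Y, hY⟩ : ∃ Y, Y = yy N ^ (1 / (k : ℝ)) := ⟨_, rfl⟩
  have hY0 : 0 < Y := by rw [hY]; exact Real.rpow_pos_of_pos h2 _
  have hYk : Y ^ k = yy N := by
    rw [hY, ← Real.rpow_natCast, ← Real.rpow_mul h2.le, one_div_mul_cancel hk0.ne', Real.rpow_one]
  obtain ⟨i, hi⟩ : ∃ i : ℕ, i = ⌊δ * Y⌋₊ := ⟨_, rfl⟩
  have hi1 : (i : ℝ) ≤ δ * Y := by rw [hi]; exact Nat.floor_le (by positivity)
  have hi2 : δ * Y < i + 1 := by rw [hi]; exact Nat.lt_floor_add_one _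
  refine ⟨2 ^ i - 1, ?_, ?_⟩
  · have e1 : 2 ^ i - 1 + 1 = 2 ^ i := Nat.sub_add_cancel Nat.one_le_two_pow
    rw [e1, Nat.size_pow]
    have h5 : yy N < ((C * (i + 1) ^ k : ℕ) : ℝ) := by
      push_cast
      have h6 : (δ * Y) ^ k ≤ ((i : ℝ) + 1) ^ k := pow_le_pow_left₀ (by positivity) hi2.le k
      rw [mul_pow, hYk] at h6
      have hC0 : (0 : ℝ) ≤ C := Nat.cast_nonneg C
      calc yy N < (C * δ ^ k) * yy N := by nlinarith
        _ = C * (δ ^ k * yy N) := by ring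
        _ ≤ C * ((i : ℝ) + 1) ^ k := mul_le_mul_of_nonneg_left h6 hC0
    have h7 : Real.logb 2 (N : ℝ) < (2 : ℝ) ^ (C * (i + 1) ^ k) := by
      have h8 : (2 : ℝ) ^ (yy N) = Real.logb 2 (N : ℝ) :=
        Real.rpow_logb (by norm_num) (by norm_num) h3
      rw [← h8, ← Real.rpow_natCast]
      exact Real.rpow_lt_rpow_of_exponent_lt (by norm_num) h5
    have h9 : ((Nat.log 2 N : ℕ) : ℝ) ≤ Real.logb 2 (N : ℝ) := by
      rw [Real.le_logb_iff_rpow_le (by norm_num) (by exact_mod_cast h4), Real.rpow_natCast]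
      exact_mod_cast Nat.pow_log_le_self 2 (by omega)
    exact_mod_cast h9.trans_lt h7
  · have e1 : 2 ^ i - 1 + 1 = 2 ^ i := Nat.sub_add_cancel Nat.one_le_two_pow
    rw [e1]
    refine le_trans ?_ h1.le
    rw [← Real.rpow_natCast (2 : ℝ) (2 ^ i)]
    apply Real.rpow_le_rpow_of_exponent_le (by norm_num)
    push_cast
    rw [← Real.rpow_natCast (2 : ℝ) i]
    apply Real.rpow_le_rpow_of_exponent_le (by norm_num)
    change (i : ℝ) ≤ δ * yy N ^ (1 / (k : ℝ))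
    rw [← hY]
    exact hi1

end Pool.Agent.W2helper23.PL
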